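import Mathlib

/-!
# A recursion inequality with slowly growing solutions
-/

set_option autoImplicit false
set_option linter.all false

namespace Pool.Agent.R939.CC

open Finset

/-- the growth step -/
theorem grow_step {δ C7 a N S S' P P' : ℝ} (hC7 : 0 < C7) (ha : 1 ≤ a) (haC : 2 * C7 ≤ a)
    (hδ : 0 < δ) (haN : a ≤ N) (hS : 0 ≤ S)
    (hP' : 0 ≤ P') (hP : 0 ≤ P) (hPP : P ≤ P' * (1 + δ / (N + 1)))
    (hSS : S * (1 + δ / (N + 1) - C7 / (N + 1) ^ 2) ≤ S')
    (hY : (1 / (a + 1) * (1 - C7 * (1 / a - 1 / N))) * P' ≤ S) :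
    (1 / (a + 1) * (1 - C7 * (1 / a - 1 / (N + 1)))) * P ≤ S' := by
  have hN0 : 0 < N := by linarith
  have ha0 : 0 < a := by linarith
  set Y : ℝ := 1 / (a + 1) * (1 - C7 * (1 / a - 1 / N)) with hYd
  have h11 : (0 : ℝ) ≤ 1 / a - 1 / N := by
    rw [sub_nonneg]
    exact one_div_le_one_div_of_le ha0 haN
  have hCa : C7 * (1 / a) ≤ 1 := by
    rw [mul_one_div, div_le_one ha0]
    linarith
  have hCN : 0 ≤ C7 * (1 / N) := by positivity
  have h13 : (0 : ℝ) ≤ 1 / (a + 1) := by positivity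
  have hin : 0 ≤ 1 - C7 * (1 / a - 1 / N) := by
    rw [mul_sub]
    linarith
  have hYpos : 0 ≤ Y := mul_nonneg h13 hin
  have h5 : (1 - C7 / (N + 1) ^ 2) * (1 + δ / (N + 1)) ≤ 1 + δ / (N + 1) - C7 / (N + 1) ^ 2 := by
    have h6 : 0 ≤ C7 / (N + 1) ^ 2 * (δ / (N + 1)) := by positivity
    have e : (1 - C7 / (N + 1) ^ 2) * (1 + δ / (N + 1)) =
        1 + δ / (N + 1) - C7 / (N + 1) ^ 2 - C7 / (N + 1) ^ 2 * (δ / (N + 1)) := by ring
    rw [e]
    linarith
  have h7 : 0 ≤ 1 - C7 / (N + 1) ^ 2 := by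
    have h8 : C7 / (N + 1) ^ 2 ≤ 1 := by
      rw [div_le_one (by positivity)]
      have h9 : C7 ≤ N := by linarith
      have h10 : N ≤ (N + 1) ^ 2 := by nlinarith
      linarith
    linarith
  have h8 : C7 / (N + 1) ^ 2 ≤ C7 * (1 / N - 1 / (N + 1)) := by
    rw [div_eq_mul_one_div]
    refine mul_le_mul_of_nonneg_left ?_ hC7.le
    rw [div_sub_div _ _ hN0.ne' (by positivity), div_le_div_iff₀ (by positivity) (by positivity)]
    nlinarith
  have h9 : 1 / (a + 1) * (1 - C7 * (1 / a - 1 / (N + 1))) ≤ Y * (1 - C7 / (N + 1) ^ 2) := by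
    have h10 : Y ≤ 1 / (a + 1) := by
      rw [hYd]
      have h12 : 1 - C7 * (1 / a - 1 / N) ≤ 1 := by
        have := mul_nonneg hC7.le h11
        linarith
      have := mul_le_mul_of_nonneg_left h12 h13
      linarith
    have h14 : Y * (C7 / (N + 1) ^ 2) ≤ 1 / (a + 1) * (C7 * (1 / N - 1 / (N + 1))) :=
      mul_le_mul h10 h8 (by positivity) h13
    have h12 : Y * (1 - C7 / (N + 1) ^ 2) = Y - Y * (C7 / (N + 1) ^ 2) := by ring
    have h15 : 1 / (a + 1) * (1 - C7 * (1 / a - 1 / (N + 1))) = Y -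
        1 / (a + 1) * (C7 * (1 / N - 1 / (N + 1))) := by
      rw [hYd]
      ring
    rw [h12, h15]
    linarith
  have hmid : 0 ≤ 1 + δ / (N + 1) - C7 / (N + 1) ^ 2 := by
    have : 0 ≤ δ / (N + 1) := by positivity
    linarith
  calc 1 / (a + 1) * (1 - C7 * (1 / a - 1 / (N + 1))) * P ≤
      (Y * (1 - C7 / (N + 1) ^ 2)) * P := mul_le_mul_of_nonneg_right h9 hP
    _ ≤ (Y * (1 - C7 / (N + 1) ^ 2)) * (P' * (1 + δ / (N + 1))) :=
        mul_le_mul_of_nonneg_left hPP (mul_nonneg hYpos h7)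
    _ = (Y * P') * ((1 - C7 / (N + 1) ^ 2) * (1 + δ / (N + 1))) := by ring
    _ ≤ (Y * P') * (1 + δ / (N + 1) - C7 / (N + 1) ^ 2) :=
        mul_le_mul_of_nonneg_left h5 (mul_nonneg hYpos hP')
    _ ≤ S * (1 + δ / (N + 1) - C7 / (N + 1) ^ 2) := mul_le_mul_of_nonneg_right hY hmid
    _ ≤ S' := hSS

/-- If `n x_n` is close to `δ (x_0 + ⋯ + x_(n-1))` for `n ≤ M`, then `x_n ≥ c n ^ (δ - 1)`, with `c`
and `n₀` not depending on `x` and `M`. -/
theorem rec_bound {δ C θ : ℝ} (hδ : 0 < δ) (hδ1 : δ ≤ 1) (hC : 0 ≤ C) (hθ : 0 < θ) (hθ1 : θ < 1) :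
    ∃ (c : ℝ) (n0 : ℕ), 0 < c ∧ ∀ (M : ℕ) (x : ℕ → ℝ), x 0 = 1 → (∀ n, 0 ≤ x n) →
      (∀ n : ℕ, n + 1 ≤ M → |((n + 1 : ℕ) : ℝ) * x (n + 1) - δ * ∑ i ∈ range (n + 1), x i| ≤
        C * ∑ i ∈ range (n + 1), θ ^ (n + 1 - i) * x i) →
      ∀ n : ℕ, n0 ≤ n → n ≤ M → c * (n : ℝ) ^ δ ≤ n * x n := by
  -- constants
  set K : ℝ := δ + C + 1 with hK
  have hK1 : 1 ≤ K := by rw [hK]; linarith
  have hsum : Summable fun m : ℕ => ((m : ℝ) + 1) * θ ^ m := by
    have h1 : Summable fun m : ℕ => (m : ℝ) ^ 1 * θ ^ m :=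
      summable_pow_mul_geometric_of_norm_lt_one 1 (by rw [Real.norm_of_nonneg hθ.le]; exact hθ1)
    have h2 : Summable fun m : ℕ => θ ^ m := summable_geometric_of_lt_one hθ.le hθ1
    refine (h1.add h2).congr fun m => ?_
    ring
  set A : ℝ := ∑' m : ℕ, ((m : ℝ) + 1) * θ ^ m with hA
  have hA0 : 0 ≤ A := tsum_nonneg fun m => by positivity
  set C7 : ℝ := C * K * A + 1 with hC7
  have hC70 : 0 < C7 := by rw [hC7]; positivity
  obtain ⟨n1, hn1⟩ := exists_nat_ge (2 * C7 / δ + 2 * C7 + 1)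
  have hn1a : 2 * C7 ≤ n1 := by
    have : 0 ≤ 2 * C7 / δ := by positivity
    linarith
  have hn1b : 2 * C7 ≤ δ * n1 := by
    have h1 : 2 * C7 / δ ≤ n1 := by linarith
    rw [div_le_iff₀ hδ] at h1
    linarith
  have hn1c : (1 : ℝ) ≤ n1 := by
    have : 0 ≤ 2 * C7 / δ := by positivity
    linarith
  have hn1d : 1 ≤ n1 := by exact_mod_cast hn1c
  refine ⟨δ / (4 * (n1 + 1)), n1 + 1, by positivity, ?_⟩
  intro M x hx0 hx hrec
  set S : ℕ → ℝ := fun n => ∑ i ∈ range (n + 1), x i with hS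
  have hSs : ∀ n, S (n + 1) = S n + x (n + 1) := fun n => by
    simp only [hS]
    rw [sum_range_succ]
  have hmono : ∀ m n, m ≤ n → S m ≤ S n := by
    intro m n h
    refine sum_le_sum_of_subset_of_nonneg ?_ fun i _ _ => hx i
    exact range_mono (by omega)
  have hS1 : ∀ n, 1 ≤ S n := by
    intro n
    have h1 : S 0 = 1 := by simp [hS, hx0]
    rw [← h1]
    exact hmono 0 n (Nat.zero_le n)
  -- the crude bound
  have hup : ∀ n, n + 1 ≤ M → ((n + 1 : ℕ) : ℝ) * x (n + 1) ≤ K * S n := by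
    intro n hn
    have h1 := (abs_le.1 (hrec n hn)).2
    have h2 : ∑ i ∈ range (n + 1), θ ^ (n + 1 - i) * x i ≤ S n := by
      refine sum_le_sum fun i _ => ?_
      have h3 : θ ^ (n + 1 - i) ≤ 1 := pow_le_one₀ hθ.le hθ1.le
      have := mul_le_mul_of_nonneg_right h3 (hx i)
      linarith
    have h3 : C * ∑ i ∈ range (n + 1), θ ^ (n + 1 - i) * x i ≤ C * S n :=
      mul_le_mul_of_nonneg_left h2 hC
    have h4 : 0 ≤ S n := by linarith [hS1 n]
    rw [hK]
    show _ ≤ (δ + C + 1) * S n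
    have h5 : ((n + 1 : ℕ) : ℝ) * x (n + 1) ≤ δ * S n + C * S n := by
      have : δ * ∑ i ∈ range (n + 1), x i = δ * S n := rfl
      linarith
    nlinarith
  -- the sum with the geometric weights
  have hgeo : ∀ n, n + 1 ≤ M → ((n + 1 : ℕ) : ℝ) * ∑ i ∈ range (n + 1), θ ^ (n + 1 - i) * x i ≤
      K * A * S n := by
    intro n hn
    have hSn : 0 ≤ S n := by linarith [hS1 n]
    have h1 : ∀ i ∈ range (n + 1), ((n + 1 : ℕ) : ℝ) * (θ ^ (n + 1 - i) * x i) ≤
        K * S n * ((((n + 1 - i : ℕ) : ℝ) + 1) * θ ^ (n + 1 - i)) := by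
      intro i hi
      rw [mem_range] at hi
      have hpow : 0 ≤ θ ^ (n + 1 - i) := by positivity
      have h2 : ((n + 1 : ℕ) : ℝ) * x i ≤ K * S n * (((n + 1 - i : ℕ) : ℝ) + 1) := by
        rcases i with _ | i
        · rw [hx0, mul_one, Nat.sub_zero]
          have h3 : ((n + 1 : ℕ) : ℝ) ≤ ((n + 1 : ℕ) : ℝ) + 1 := by linarith
          have h4 : 1 ≤ K * S n := by nlinarith [hS1 n]
          have h5 : (0 : ℝ) ≤ ((n + 1 : ℕ) : ℝ) + 1 := by positivity
          nlinarith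
        · have h3 := hup i (by omega)
          have h4 : S i ≤ S n := hmono i n (by omega)
          have h5 : ((n + 1 : ℕ) : ℝ) ≤ ((i + 1 : ℕ) : ℝ) * (((n + 1 - (i + 1) : ℕ) : ℝ) + 1) := by
            have h6 : n + 1 ≤ (i + 1) * (n + 1 - (i + 1) + 1) := by
              obtain ⟨d, hd⟩ : ∃ d, n = i + 1 + d := ⟨n - (i + 1), by omega⟩
              subst hd
              have : i + 1 + d + 1 - (i + 1) = d + 1 := by omega
              rw [this]
              nlinarith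
            exact_mod_cast h6
          calc ((n + 1 : ℕ) : ℝ) * x (i + 1) ≤
              (((i + 1 : ℕ) : ℝ) * (((n + 1 - (i + 1) : ℕ) : ℝ) + 1)) * x (i + 1) :=
                mul_le_mul_of_nonneg_right h5 (hx _)
            _ = (((i + 1 : ℕ) : ℝ) * x (i + 1)) * (((n + 1 - (i + 1) : ℕ) : ℝ) + 1) := by ring
            _ ≤ (K * S i) * (((n + 1 - (i + 1) : ℕ) : ℝ) + 1) :=
                mul_le_mul_of_nonneg_right h3 (by positivity)
            _ ≤ (K * S n) * (((n + 1 - (i + 1) : ℕ) : ℝ) + 1) :=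
                mul_le_mul_of_nonneg_right (mul_le_mul_of_nonneg_left h4 (by linarith))
                  (by positivity)
      calc ((n + 1 : ℕ) : ℝ) * (θ ^ (n + 1 - i) * x i) =
          (((n + 1 : ℕ) : ℝ) * x i) * θ ^ (n + 1 - i) := by ring
        _ ≤ (K * S n * (((n + 1 - i : ℕ) : ℝ) + 1)) * θ ^ (n + 1 - i) :=
            mul_le_mul_of_nonneg_right h2 hpow
        _ = _ := by ring
    rw [mul_sum]
    refine (sum_le_sum h1).trans ?_
    rw [← mul_sum]
    have h2 : ∑ i ∈ range (n + 1), (((n + 1 - i : ℕ) : ℝ) + 1) * θ ^ (n + 1 - i) ≤ A := by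
      have h3 : ∑ i ∈ range (n + 1), (((n + 1 - i : ℕ) : ℝ) + 1) * θ ^ (n + 1 - i) =
          ∑ i ∈ range (n + 1), (((i + 1 : ℕ) : ℝ) + 1) * θ ^ (i + 1) := by
        rw [← sum_range_reflect]
        refine sum_congr rfl fun i hi => ?_
        rw [mem_range] at hi
        have : n + 1 - (n + 1 - 1 - i) = i + 1 := by omega
        rw [this]
      rw [h3]
      have h4 : ∑ i ∈ range (n + 1), (((i + 1 : ℕ) : ℝ) + 1) * θ ^ (i + 1) ≤
          ∑ i ∈ range (n + 2), (((i : ℕ) : ℝ) + 1) * θ ^ i := by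
        rw [sum_range_succ' _ (n + 1)]
        have : (0 : ℝ) ≤ (((0 : ℕ) : ℝ) + 1) * θ ^ 0 := by simp
        linarith
      exact h4.trans (hsum.sum_le_tsum _ fun i _ => by positivity)
    calc K * S n * _ ≤ K * S n * A := mul_le_mul_of_nonneg_left h2 (by positivity)
      _ = K * A * S n := by ring
  -- the precise bound
  have hlow : ∀ n, n + 1 ≤ M → δ * S n - C7 * S n / ((n + 1 : ℕ) : ℝ) ≤
      ((n + 1 : ℕ) : ℝ) * x (n + 1) := by
    intro n hn
    have hn0 : (0 : ℝ) < ((n + 1 : ℕ) : ℝ) := by positivity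
    have hSn : 0 ≤ S n := by linarith [hS1 n]
    have h1 := (abs_le.1 (hrec n hn)).1
    have h2 := hgeo n hn
    have h3 : C * ∑ i ∈ range (n + 1), θ ^ (n + 1 - i) * x i ≤ C7 * S n / ((n + 1 : ℕ) : ℝ) := by
      rw [le_div_iff₀ hn0]
      have h4 := mul_le_mul_of_nonneg_left h2 hC
      rw [hC7]
      nlinarith
    have : δ * ∑ i ∈ range (n + 1), x i = δ * S n := rfl
    linarith
  -- growth of `S`
  have hgrow : ∀ d : ℕ, n1 + d ≤ M →
      (1 / (n1 + 1) * (1 - C7 * (1 / n1 - 1 / ((n1 + d : ℕ) : ℝ)))) *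
        (((n1 + d : ℕ) : ℝ) + 1) ^ δ ≤ S (n1 + d) := by
    intro d
    induction d with
    | zero =>
      intro _
      rw [add_zero, sub_self, mul_zero, sub_zero, mul_one]
      have h1 : ((n1 : ℝ) + 1) ^ δ ≤ (n1 : ℝ) + 1 := by
        have := Real.rpow_le_rpow_of_exponent_le (x := (n1 : ℝ) + 1) (by linarith) hδ1
        rwa [Real.rpow_one] at this
      have h2 : 1 / ((n1 : ℝ) + 1) * ((n1 : ℝ) + 1) ^ δ ≤ 1 := by
        rw [one_div, inv_mul_le_iff₀ (by positivity), mul_one]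
        exact h1
      exact h2.trans (hS1 _)
    | succ d ih =>
      intro hd
      have ih' := ih (by omega)
      set N : ℕ := n1 + d with hN
      have hN1 : (n1 : ℝ) ≤ N := by rw [hN]; push_cast; linarith [Nat.cast_nonneg (α := ℝ) d]
      have hN0 : (0 : ℝ) < N := by linarith
      have e1 : n1 + (d + 1) = N + 1 := by omega
      rw [e1]
      have h1 := hlow N (by omega)
      have hSN : 0 ≤ S N := by linarith [hS1 N]
      -- `S (N + 1) ≥ S N (1 + δ / (N + 1) - C7 / (N + 1) ^ 2)`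
      have h2 : S N * (1 + δ / ((N : ℝ) + 1) - C7 / ((N : ℝ) + 1) ^ 2) ≤ S (N + 1) := by
        rw [hSs]
        have h3 : S N * (δ / ((N : ℝ) + 1) - C7 / ((N : ℝ) + 1) ^ 2) ≤ x (N + 1) := by
          have h4 : (δ * S N - C7 * S N / ((N : ℝ) + 1)) / ((N : ℝ) + 1) ≤ x (N + 1) := by
            rw [div_le_iff₀ (by positivity)]
            push_cast at h1
            linarith
          refine le_trans (le_of_eq ?_) h4
          field_simp
        linarith
      have hber : ((N : ℝ) + 1 + 1) ^ δ ≤ ((N : ℝ) + 1) ^ δ * (1 + δ / ((N : ℝ) + 1)) := by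
        have h3 : ((N : ℝ) + 1 + 1) = ((N : ℝ) + 1) * (1 + 1 / ((N : ℝ) + 1)) := by
          field_simp
        rw [h3, Real.mul_rpow (by positivity) (by positivity)]
        refine mul_le_mul_of_nonneg_left ?_ (by positivity)
        have h4 := rpow_one_add_le_one_add_mul_self (s := 1 / ((N : ℝ) + 1)) (by
          have : 0 ≤ 1 / ((N : ℝ) + 1) := by positivity
          linarith) hδ.le hδ1
        refine h4.trans (le_of_eq ?_)
        ring
      push_cast
      exact grow_step hC70 hn1c hn1a hδ hN1 hSN (by positivity) (by positivity) hber h2 ih'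
  -- conclusion
  intro n hn hnM
  obtain ⟨d, hd⟩ : ∃ d, n = n1 + d + 1 := ⟨n - n1 - 1, by omega⟩
  subst hd
  have h1 := hgrow d (by omega)
  have h2 := hlow (n1 + d) hnM
  have hN0 : (0 : ℝ) < ((n1 + d + 1 : ℕ) : ℝ) := by positivity
  have hSn : 0 ≤ S (n1 + d) := by linarith [hS1 (n1 + d)]
  have h3 : C7 * S (n1 + d) / ((n1 + d + 1 : ℕ) : ℝ) ≤ δ / 2 * S (n1 + d) := by
    rw [div_le_iff₀ hN0]
    have h4 : 2 * C7 ≤ δ * ((n1 + d + 1 : ℕ) : ℝ) := by
      push_cast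
      have : 0 ≤ δ * ((d : ℝ) + 1) := by positivity
      nlinarith
    nlinarith
  have h5 : (1 : ℝ) / 2 ≤ 1 - C7 * (1 / n1 - 1 / ((n1 + d : ℕ) : ℝ)) := by
    have h4 : C7 * (1 / n1) ≤ 1 / 2 := by
      rw [mul_one_div, div_le_div_iff₀ (by linarith) (by norm_num)]
      linarith
    have h5 : 0 ≤ C7 * (1 / ((n1 + d : ℕ) : ℝ)) := by positivity
    nlinarith
  have h6 : (1 / (2 * ((n1 : ℝ) + 1))) * ((n1 + d + 1 : ℕ) : ℝ) ^ δ ≤ S (n1 + d) := by
    refine le_trans ?_ h1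
    have e : (((n1 + d : ℕ) : ℝ) + 1) = ((n1 + d + 1 : ℕ) : ℝ) := by push_cast; ring
    rw [e]
    refine mul_le_mul_of_nonneg_right ?_ (by positivity)
    have h7 : (1 : ℝ) / (2 * ((n1 : ℝ) + 1)) = 1 / ((n1 : ℝ) + 1) * (1 / 2) := by
      field_simp
    rw [h7]
    exact mul_le_mul_of_nonneg_left h5 (by positivity)
  have h7 : δ / 2 * S (n1 + d) ≤ ((n1 + d + 1 : ℕ) : ℝ) * x (n1 + d + 1) := by linarith
  refine le_trans ?_ h7
  have h8 := mul_le_mul_of_nonneg_left h6 (by positivity : (0 : ℝ) ≤ δ / 2)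
  refine le_trans (le_of_eq ?_) h8
  field_simp
  ring

end Pool.Agent.R939.CC
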