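import Mathlib
import Pool.Agent.R939.CC.Ana

/-!
# Counting finite sets of primes with a given sum of the degrees
-/

set_option autoImplicit false
set_option linter.all false

namespace Pool.Agent.R939.CC

open Finset

theorem fin_step {Q X S C W B E : ℝ} (hQ : 0 < Q) (hW : 0 ≤ W) (hU : Q * X ≤ B)
    (hL : B ≤ Q * X + E) (hE : E ≤ Q * W) (hm1 : -(Q * (C * W)) ≤ B - Q * S)
    (hm2 : B - Q * S ≤ Q * (C * W)) : |X - S| ≤ (C + 1) * W := by
  have e : Q * ((C + 1) * W) = Q * (C * W) + Q * W := by ring
  have e2 : Q * (X - S) = Q * X - Q * S := by ring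
  have e3 : 0 ≤ Q * W := by positivity
  rw [abs_le]
  constructor
  · apply le_of_mul_le_mul_left _ hQ
    rw [mul_neg, e, e2]
    linarith
  · apply le_of_mul_le_mul_left _ hQ
    rw [e, e2]
    linarith

section comb

variable {α : Type} [DecidableEq α] (U : Finset α) (deg : α → ℕ)

/-- the sets of elements of `U` with the sum of the degrees `n` -/
def fam (n : ℕ) : Finset (Finset α) := U.powerset.filter fun A => ∑ P ∈ A, deg P = n

def famP (P : α) (n : ℕ) : Finset (Finset α) := (fam U deg n).filter fun A => P ∈ A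

theorem sum_famP (n : ℕ) : ∑ P ∈ U, deg P * (famP U deg P n).card = n * (fam U deg n).card := by
  have h1 : ∀ P ∈ U, deg P * (famP U deg P n).card =
      ∑ A ∈ fam U deg n, if P ∈ A then deg P else 0 := by
    intro P _
    rw [famP, card_filter, mul_sum]
    refine sum_congr rfl fun A _ => ?_
    split_ifs <;> simp
  rw [sum_congr rfl h1, sum_comm]
  have h2 : ∀ A ∈ fam U deg n, (∑ P ∈ U, if P ∈ A then deg P else 0) = n := by
    intro A hA
    rw [fam, mem_filter, mem_powerset] at hA
    rw [← sum_filter, filter_mem_eq_inter, inter_eq_right.2 hA.1]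
    exact hA.2
  rw [sum_congr rfl h2, sum_const, smul_eq_mul, mul_comm]

theorem famP_lt {P : α} {n : ℕ} (h : n < deg P) : (famP U deg P n).card = 0 := by
  rw [card_eq_zero, famP, filter_eq_empty_iff]
  intro A hA hP
  rw [fam, mem_filter] at hA
  have h1 : deg P ≤ ∑ P ∈ A, deg P := single_le_sum (f := deg) (fun _ _ => Nat.zero_le _) hP
  omega

theorem famP_add {P : α} (hP : P ∈ U) (n : ℕ) :
    (famP U deg P (n + deg P)).card + (famP U deg P n).card = (fam U deg n).card := by
  have h1 : (famP U deg P (n + deg P)).card = ((fam U deg n).filter fun A => ¬ P ∈ A).card := by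
    refine card_bij' (fun A _ => A.erase P) (fun A _ => insert P A) ?_ ?_ ?_ ?_
    · intro A hA
      rw [famP, mem_filter, fam, mem_filter, mem_powerset] at hA
      rw [mem_filter, fam, mem_filter, mem_powerset]
      refine ⟨⟨(erase_subset _ _).trans hA.1.1, ?_⟩, notMem_erase _ _⟩
      have h2 := add_sum_erase A deg hA.2
      omega
    · intro A hA
      rw [mem_filter, fam, mem_filter, mem_powerset] at hA
      rw [famP, mem_filter, fam, mem_filter, mem_powerset]
      refine ⟨⟨insert_subset hP hA.1.1, ?_⟩, mem_insert_self _ _⟩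
      rw [sum_insert hA.2, hA.1.2, add_comm]
    · intro A hA
      rw [famP, mem_filter] at hA
      exact insert_erase hA.2
    · intro A hA
      rw [mem_filter] at hA
      exact erase_insert hA.2
  rw [h1, famP, add_comm]
  exact card_filter_add_card_filter_not _

/-- the sum of the degrees of the elements of degree `j` -/
def wt (j : ℕ) : ℕ := ∑ P ∈ U.filter (fun P => deg P = j), deg P

theorem regroup (hpos : ∀ P ∈ U, 1 ≤ deg P) (n : ℕ) (f : ℕ → ℕ) :
    ∑ P ∈ U.filter (fun P => deg P ≤ n + 1), deg P * f (n + 1 - deg P) =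
      ∑ i ∈ range (n + 1), wt U deg (n + 1 - i) * f i := by
  have h1 : ∀ P ∈ U.filter (fun P => deg P ≤ n + 1), n + 1 - deg P ∈ range (n + 1) := by
    intro P hP
    rw [mem_filter] at hP
    have := hpos P hP.1
    rw [mem_range]
    omega
  rw [← sum_fiberwise_of_maps_to h1]
  refine sum_congr rfl fun i hi => ?_
  rw [mem_range] at hi
  have h2 : (U.filter (fun P => deg P ≤ n + 1)).filter (fun P => n + 1 - deg P = i) =
      U.filter (fun P => deg P = n + 1 - i) := by
    ext P
    simp only [mem_filter]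
    constructor
    · rintro ⟨⟨h3, h4⟩, h5⟩
      exact ⟨h3, by omega⟩
    · rintro ⟨h3, h4⟩
      exact ⟨⟨h3, by omega⟩, by omega⟩
  rw [h2, wt, sum_mul]
  refine sum_congr rfl fun P hP => ?_
  rw [mem_filter] at hP
  have : n + 1 - deg P = i := by omega
  rw [this]

theorem upper (hpos : ∀ P ∈ U, 1 ≤ deg P) (n : ℕ) : (n + 1) * (fam U deg (n + 1)).card ≤
    ∑ i ∈ range (n + 1), wt U deg (n + 1 - i) * (fam U deg i).card := by
  rw [← regroup U deg hpos n fun i => (fam U deg i).card, ← sum_famP, sum_filter]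
  refine sum_le_sum fun P hP => ?_
  split_ifs with h
  · refine Nat.mul_le_mul_left _ ?_
    have h1 := famP_add U deg hP (n + 1 - deg P)
    rw [Nat.sub_add_cancel h] at h1
    omega
  · rw [famP_lt U deg (by omega)]
    simp

/-- the sum of the degrees of the elements with `2 deg = j` -/
def wt2 (j : ℕ) : ℕ := ∑ P ∈ U.filter (fun P => 2 * deg P = j), deg P

theorem lower (hpos : ∀ P ∈ U, 1 ≤ deg P) (n : ℕ) :
    ∑ i ∈ range (n + 1), wt U deg (n + 1 - i) * (fam U deg i).card ≤
      (n + 1) * (fam U deg (n + 1)).card +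
        ∑ i ∈ range (n + 1), wt2 U deg (n + 1 - i) * (fam U deg i).card := by
  rw [← regroup U deg hpos n fun i => (fam U deg i).card, ← sum_famP]
  have h1 : ∑ P ∈ U.filter (fun P => deg P ≤ n + 1), deg P * (fam U deg (n + 1 - deg P)).card =
      ∑ P ∈ U.filter (fun P => deg P ≤ n + 1), deg P * (famP U deg P (n + 1)).card +
      ∑ P ∈ U.filter (fun P => deg P ≤ n + 1), deg P * (famP U deg P (n + 1 - deg P)).card := by
    rw [← sum_add_distrib]
    refine sum_congr rfl fun P hP => ?_
    rw [mem_filter] at hP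
    have h2 := famP_add U deg hP.1 (n + 1 - deg P)
    rw [Nat.sub_add_cancel hP.2] at h2
    rw [← h2]
    ring
  rw [h1]
  refine Nat.add_le_add ?_ ?_
  · exact sum_le_sum_of_subset (filter_subset _ _)
  · have h3 : ∑ P ∈ U.filter (fun P => deg P ≤ n + 1), deg P * (famP U deg P (n + 1 - deg P)).card ≤
        ∑ P ∈ U.filter (fun P => 2 * deg P ≤ n + 1), deg P * (fam U deg (n + 1 - 2 * deg P)).card := by
      rw [sum_filter, sum_filter]
      refine sum_le_sum fun P hP => ?_
      have hp := hpos P hP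
      by_cases h4 : 2 * deg P ≤ n + 1
      · rw [if_pos h4, if_pos (by omega)]
        refine Nat.mul_le_mul_left _ ?_
        have h5 := famP_add U deg hP (n + 1 - 2 * deg P)
        have e : n + 1 - 2 * deg P + deg P = n + 1 - deg P := by omega
        rw [e] at h5
        omega
      · rw [if_neg h4]
        split_ifs with h5
        · rw [famP_lt U deg (by omega)]
          simp
        · exact le_rfl
    refine h3.trans (le_of_eq ?_)
    have h4 : ∀ P ∈ U.filter (fun P => 2 * deg P ≤ n + 1), n + 1 - 2 * deg P ∈ range (n + 1) := by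
      intro P hP
      rw [mem_filter] at hP
      have := hpos P hP.1
      rw [mem_range]
      omega
    rw [← sum_fiberwise_of_maps_to h4]
    refine sum_congr rfl fun i hi => ?_
    rw [mem_range] at hi
    have h5 : (U.filter (fun P => 2 * deg P ≤ n + 1)).filter (fun P => n + 1 - 2 * deg P = i) =
        U.filter (fun P => 2 * deg P = n + 1 - i) := by
      ext P
      simp only [mem_filter]
      constructor
      · rintro ⟨⟨h6, h7⟩, h8⟩
        exact ⟨h6, by omega⟩
      · rintro ⟨h6, h7⟩
        exact ⟨⟨h6, by omega⟩, by omega⟩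
    rw [h5, wt2, sum_mul]
    refine sum_congr rfl fun P hP => ?_
    rw [mem_filter] at hP
    have : n + 1 - 2 * deg P = i := by omega
    rw [this]

/-- **The count.** -/
theorem count {δ C : ℝ} (hδ : 0 < δ) (hδ1 : δ ≤ 1) (hC : 0 ≤ C) {θ q : ℝ} (hθ : 0 < θ)
    (hθ1 : θ < 1) (hq : 0 < q) (hθq : θ ^ 2 * q = 1) :
    ∃ (c : ℝ) (n0 : ℕ), 0 < c ∧ ∀ (α : Type) [DecidableEq α] (U : Finset α) (deg : α → ℕ) (M : ℕ),
      (∀ P ∈ U, 1 ≤ deg P) → (∀ j, 1 ≤ j → j ≤ M → (wt U deg j : ℝ) ≤ q ^ j) →
      (∀ j, 1 ≤ j → j ≤ M → |(wt U deg j : ℝ) - δ * q ^ j| ≤ C * θ ^ j * q ^ j) →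
      ∀ n : ℕ, n0 ≤ n → n ≤ M → c * (n : ℝ) ^ δ * q ^ n ≤ n * (fam U deg n).card := by
  obtain ⟨c, n0, hc, h⟩ := rec_bound hδ hδ1 (by positivity : (0 : ℝ) ≤ C + 1) hθ hθ1
  refine ⟨c, n0, hc, ?_⟩
  intro α _ U deg M hpos hle hW n hn hnM
  set x : ℕ → ℝ := fun n => (fam U deg n).card / q ^ n with hx
  have hqn : ∀ n : ℕ, 0 < q ^ n := fun n => pow_pos hq n
  have key := h M x ?_ ?_ ?_ n hn hnM
  · have h1 := mul_le_mul_of_nonneg_right key (hqn n).le
    refine h1.trans (le_of_eq ?_)
    rw [hx]
    have := (hqn n).ne'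
    field_simp
  · have h1 : fam U deg 0 = {∅} := by
      ext A
      rw [fam, mem_filter, mem_powerset, mem_singleton]
      constructor
      · rintro ⟨h1, h2⟩
        rw [eq_empty_iff_forall_notMem]
        intro P hP
        have h3 : deg P = 0 := (sum_eq_zero_iff.1 h2) P hP
        have := hpos P (h1 hP)
        omega
      · rintro rfl
        simp
    rw [hx]
    simp [h1]
  · intro n
    exact div_nonneg (Nat.cast_nonneg _) (hqn n).le
  · intro n hnM
    have hcast : ∀ i ∈ range (n + 1), q ^ (n + 1) = q ^ (n + 1 - i) * q ^ i := by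
      intro i hi
      rw [mem_range] at hi
      rw [← pow_add]
      congr 1
      omega
    have hU := upper U deg hpos n
    have hL := lower U deg hpos n
    have hU' : ((n + 1 : ℕ) : ℝ) * (fam U deg (n + 1)).card ≤
        ∑ i ∈ range (n + 1), (wt U deg (n + 1 - i) : ℝ) * (fam U deg i).card := by
      exact_mod_cast hU
    have hL' : ∑ i ∈ range (n + 1), (wt U deg (n + 1 - i) : ℝ) * (fam U deg i).card ≤
        ((n + 1 : ℕ) : ℝ) * (fam U deg (n + 1)).card +
          ∑ i ∈ range (n + 1), (wt2 U deg (n + 1 - i) : ℝ) * (fam U deg i).card := by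
      exact_mod_cast hL
    have hQ := hqn (n + 1)
    -- the main sum
    have hmain : |∑ i ∈ range (n + 1), (wt U deg (n + 1 - i) : ℝ) * (fam U deg i).card -
        q ^ (n + 1) * (δ * ∑ i ∈ range (n + 1), x i)| ≤
        q ^ (n + 1) * (C * ∑ i ∈ range (n + 1), θ ^ (n + 1 - i) * x i) := by
      rw [mul_sum, mul_sum, mul_sum, mul_sum, ← sum_sub_distrib]
      refine (abs_sum_le_sum_abs _ _).trans (sum_le_sum fun i hi => ?_)
      have hi' := hi
      rw [mem_range] at hi'
      have e1 : (wt U deg (n + 1 - i) : ℝ) * (fam U deg i).card - q ^ (n + 1) * (δ * x i) =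
          ((wt U deg (n + 1 - i) : ℝ) - δ * q ^ (n + 1 - i)) * (fam U deg i).card := by
        rw [hcast i hi, hx]
        have := (hqn i).ne'
        field_simp
      rw [e1, abs_mul, abs_of_nonneg (Nat.cast_nonneg (α := ℝ) (fam U deg i).card)]
      have h2 := hW (n + 1 - i) (by omega) (by omega)
      refine (mul_le_mul_of_nonneg_right h2 (Nat.cast_nonneg _)).trans (le_of_eq ?_)
      rw [hcast i hi, hx]
      have := (hqn i).ne'
      field_simp
    have herr : ∑ i ∈ range (n + 1), (wt2 U deg (n + 1 - i) : ℝ) * (fam U deg i).card ≤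
        q ^ (n + 1) * ∑ i ∈ range (n + 1), θ ^ (n + 1 - i) * x i := by
      rw [mul_sum]
      refine sum_le_sum fun i hi => ?_
      have hi' := hi
      rw [mem_range] at hi'
      have h2 : (wt2 U deg (n + 1 - i) : ℝ) ≤ θ ^ (n + 1 - i) * q ^ (n + 1 - i) := by
        by_cases h3 : ∃ P ∈ U, 2 * deg P = n + 1 - i
        · obtain ⟨P, hP, h4⟩ := h3
          have h5 : wt2 U deg (n + 1 - i) = wt U deg (deg P) := by
            rw [wt2, wt]
            congr 1
            ext P'
            simp only [mem_filter]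
            constructor
            · rintro ⟨h6, h7⟩
              exact ⟨h6, by omega⟩
            · rintro ⟨h6, h7⟩
              exact ⟨h6, by omega⟩
          rw [h5]
          refine (hle (deg P) (hpos P hP) (by omega)).trans (le_of_eq ?_)
          have e : θ ^ (n + 1 - i) * q ^ (n + 1 - i) = (θ ^ 2 * q) ^ (deg P) * q ^ (deg P) := by
            rw [← h4, pow_mul, pow_mul, mul_pow, ← pow_mul q, mul_comm 2, pow_mul q]
            ring
          rw [e, hθq, one_pow, one_mul]
        · have h4 : wt2 U deg (n + 1 - i) = 0 := by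
            rw [wt2, sum_eq_zero_iff]
            intro P hP
            rw [mem_filter] at hP
            exact absurd ⟨P, hP.1, hP.2⟩ h3
          rw [h4]
          push_cast
          positivity
      refine (mul_le_mul_of_nonneg_right h2 (Nat.cast_nonneg _)).trans (le_of_eq ?_)
      rw [hcast i hi, hx]
      have := (hqn i).ne'
      field_simp
    have hxn : ((n + 1 : ℕ) : ℝ) * (fam U deg (n + 1)).card = q ^ (n + 1) * (((n + 1 : ℕ) : ℝ) * x (n + 1)) := by
      rw [hx]
      have := (hqn (n + 1)).ne'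
      field_simp
    have hm := abs_le.1 hmain
    rw [hxn] at hU' hL'
    set W1 := ∑ i ∈ range (n + 1), θ ^ (n + 1 - i) * x i with hWd
    have hW0 : 0 ≤ W1 := sum_nonneg fun i _ =>
      mul_nonneg (by positivity) (div_nonneg (Nat.cast_nonneg _) (hqn i).le)
    exact fin_step hQ hW0 hU' hL' herr hm.1 hm.2

end comb

end Pool.Agent.R939.CC
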