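import Mathlib
import Pool.Agent.R939.CC.Comb
import Pool.Agent.R939.FF.Prm
import Pool.Agent.R939.KM.Fin

/-!
# Counting squarefree polynomials with prime divisors in a given set
-/

set_option autoImplicit false
set_option linter.all false

namespace Pool.Agent.R939.CC

open Polynomial Finset Pool.Agent.R939.EI Pool.Agent.R939.FF Pool.Agent.R939.KM
open Pool.Agent.TH115.GD

section count

variable {k : Type} [Field k] [Fintype k]

theorem eq_of_dvd {P P' : k[X]} (h1 : P.Monic) (h2 : Irreducible P) (h1' : P'.Monic)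
    (h2' : Irreducible P') (h : P ∣ P') : P = P' :=
  eq_of_monic_of_associated h1 h1' (h2.associated_of_dvd h2' h)

theorem sq_le (n : ℕ) : n ^ 2 ≤ 4 * 2 ^ n := by
  rcases Nat.lt_or_ge n 4 with h | h
  · interval_cases n <;> norm_num
  · have := FF.sq_le_pow n h
    omega

/-- squarefree polynomials of degree `n` whose prime divisors are good -/
theorem many_sqfree {δ : ℝ} (hδ : 0 < δ) (hδ1 : δ ≤ 1) {C0 : ℝ} (hC0 : 0 ≤ C0)
    (good : k[X] → Prop) (hS : ∀ m : ℕ, m ≠ 0 → ∃ T : Finset k[X],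
      (∀ P ∈ T, P.Monic ∧ Irreducible P ∧ P.natDegree = m ∧ good P) ∧
      δ * (Fintype.card k : ℝ) ^ m ≤ m * T.card + C0 * (Real.sqrt (Fintype.card k)) ^ m) :
    ∃ (c : ℝ) (n0 : ℕ), 0 < c ∧ ∀ n : ℕ, n0 ≤ n → ∃ V : Finset k[X],
      (∀ D ∈ V, D.Monic ∧ Squarefree D ∧ D.natDegree = n ∧ ∀ π : k[X], Irreducible π → π ∣ D →
        ∃ P : k[X], P.Monic ∧ Irreducible P ∧ good P ∧ Associated π P) ∧
      c * (n : ℝ) ^ δ * (Fintype.card k : ℝ) ^ n ≤ n * V.card := by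
  classical
  set q : ℝ := (Fintype.card k : ℝ) with hq
  set Q : ℝ := Real.sqrt q with hQ
  have hq2 : (2 : ℝ) ≤ q := by
    rw [hq]
    exact_mod_cast Fintype.one_lt_card
  have hQQ : Q * Q = q := Real.mul_self_sqrt (by linarith)
  have hQ1 : 1 < Q := by
    rw [hQ, show (1 : ℝ) = Real.sqrt 1 by simp]
    exact Real.sqrt_lt_sqrt (by norm_num) (by linarith)
  have hQ0 : 0 < Q := by linarith
  obtain ⟨c, n0, hc, hcount⟩ := count hδ hδ1 (by positivity : (0 : ℝ) ≤ C0 + 2)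
    (θ := Q⁻¹) (q := q) (by positivity) (inv_lt_one_of_one_lt₀ hQ1) (by linarith) (by
      rw [← hQQ]
      field_simp)
  refine ⟨c, n0, hc, ?_⟩
  choose! T hT hTc using hS
  -- smaller sets
  have hT' : ∀ m : ℕ, m ≠ 0 → ∃ T' : Finset k[X], T' ⊆ T m ∧
      (m : ℝ) * T'.card ≤ δ * q ^ m ∧ δ * q ^ m - (C0 + 2) * Q ^ m ≤ m * T'.card := by
    intro m hm
    have hm0 : (0 : ℝ) < m := by exact_mod_cast Nat.pos_of_ne_zero hm
    have hmQ : (m : ℝ) ≤ 2 * Q ^ m := by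
      have h1 : ((m : ℝ)) ^ 2 ≤ (2 * Q ^ m) ^ 2 := by
        have h2 : (m : ℝ) ^ 2 ≤ 4 * 2 ^ m := by exact_mod_cast sq_le m
        have h3 : (2 : ℝ) ^ m ≤ q ^ m := pow_le_pow_left₀ (by norm_num) hq2 m
        have h4 : (2 * Q ^ m) ^ 2 = 4 * q ^ m := by
          rw [← hQQ, mul_pow, mul_pow]
          ring
        rw [h4]
        linarith
      exact le_of_sq_le_sq h1 (by positivity)
    set f : ℕ := ⌊δ * q ^ m / m⌋₊ with hf
    have hfle : (f : ℝ) ≤ δ * q ^ m / m := Nat.floor_le (by positivity)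
    have hflt : δ * q ^ m / m < f + 1 := Nat.lt_floor_add_one _
    obtain ⟨T', hsub, hcard⟩ := exists_subset_card_eq (s := T m) (n := min (T m).card f)
      (min_le_left _ _)
    refine ⟨T', hsub, ?_, ?_⟩
    · have h1 : (T'.card : ℝ) ≤ f := by
        rw [hcard]
        exact_mod_cast min_le_right _ _
      have h2 := h1.trans hfle
      rw [le_div_iff₀ hm0] at h2
      linarith
    · rcases le_total (T m).card f with h | h
      · rw [min_eq_left h] at hcard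
        have h1 := hTc m hm
        rw [hcard]
        have : 0 ≤ 2 * Q ^ m := by positivity
        nlinarith
      · rw [min_eq_right h] at hcard
        rw [hcard]
        rw [div_lt_iff₀ hm0] at hflt
        have : 0 ≤ C0 * Q ^ m := by positivity
        nlinarith
  choose! T' hsub hup hlow using hT'
  intro n hn
  set U : Finset k[X] := (Icc 1 n).biUnion T' with hU
  have hUmem : ∀ P ∈ U, P.Monic ∧ Irreducible P ∧ good P ∧ 1 ≤ P.natDegree ∧
      P ∈ T' P.natDegree := by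
    intro P hP
    rw [hU, mem_biUnion] at hP
    obtain ⟨m, hm, hPm⟩ := hP
    rw [mem_Icc] at hm
    obtain ⟨h1, h2, h3, h4⟩ := hT m (by omega) P (hsub m (by omega) hPm)
    exact ⟨h1, h2, h4, by omega, by rw [h3]; exact hPm⟩
  have hfil : ∀ j, 1 ≤ j → j ≤ n → U.filter (fun P => P.natDegree = j) = T' j := by
    intro j hj hjn
    ext P
    rw [mem_filter]
    constructor
    · rintro ⟨h1, h2⟩
      have := (hUmem P h1).2.2.2.2
      rwa [h2] at this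
    · intro h1
      refine ⟨?_, (hT j (by omega) P (hsub j (by omega) h1)).2.2.1⟩
      rw [hU, mem_biUnion]
      exact ⟨j, mem_Icc.2 ⟨hj, hjn⟩, h1⟩
  have hwt : ∀ j, 1 ≤ j → j ≤ n → (wt U natDegree j : ℝ) = j * (T' j).card := by
    intro j hj hjn
    have h1 : wt U natDegree j = (T' j).card * j := by
      rw [wt, hfil j hj hjn]
      have h2 : ∀ P ∈ T' j, P.natDegree = j := fun P hP =>
        (hT j (by omega) P (hsub j (by omega) hP)).2.2.1
      rw [sum_congr rfl h2, sum_const, smul_eq_mul]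
    rw [h1]
    push_cast
    ring
  have hfam := hcount k[X] U natDegree n (fun P hP => (hUmem P hP).2.2.2.1) (by
    intro j hj hjn
    rw [hwt j hj hjn]
    have h1 := hup j (by omega)
    have h2 : δ * q ^ j ≤ q ^ j := mul_le_of_le_one_left (by positivity) hδ1
    linarith) (by
    intro j hj hjn
    rw [hwt j hj hjn]
    have h1 := hup j (by omega)
    have h2 := hlow j (by omega)
    have e : (C0 + 2) * Q⁻¹ ^ j * q ^ j = (C0 + 2) * Q ^ j := by
      have h3 : Q⁻¹ ^ j * q ^ j = Q ^ j := by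
        rw [← mul_pow, ← hQQ]
        congr 1
        field_simp
      rw [mul_assoc, h3]
    rw [e, abs_le]
    have h3 : 0 ≤ (C0 + 2) * Q ^ j := by positivity
    constructor <;> linarith) n hn le_rfl
  have hdvd : ∀ A : Finset k[X], A ⊆ U → ∀ π : k[X], Irreducible π → π ∣ ∏ P ∈ A, P →
      ∃ P ∈ A, Associated π P := by
    intro A hA π hπ h
    obtain ⟨P, hP, hd⟩ := (hπ.prime.dvd_finsetProd_iff _).1 h
    exact ⟨P, hP, hπ.associated_of_dvd (hUmem P (hA hP)).2.1 hd⟩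
  refine ⟨(fam U natDegree n).image fun A => ∏ P ∈ A, P, ?_, ?_⟩
  · intro D hD
    obtain ⟨A, hA, rfl⟩ := mem_image.1 hD
    rw [fam, mem_filter, mem_powerset] at hA
    refine ⟨monic_prod_of_monic _ _ fun P hP => (hUmem P (hA.1 hP)).1, ?_, ?_, ?_⟩
    · refine Finset.squarefree_prod_of_pairwise_isCoprime ?_ fun P hP =>
        (hUmem P (hA.1 hP)).2.1.squarefree
      intro P hP P' hP' hne
      rw [Function.onFun]
      obtain ⟨a1, a2, -⟩ := hUmem P (hA.1 hP)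
      obtain ⟨b1, b2, -⟩ := hUmem P' (hA.1 hP')
      exact (a2.coprime_iff_not_dvd.2 fun h => hne (eq_of_dvd a1 a2 b1 b2 h)).isRelPrime
    · rw [natDegree_prod_of_monic _ _ fun P hP => (hUmem P (hA.1 hP)).1]
      exact hA.2
    · intro π hπ hd
      obtain ⟨P, hP, has⟩ := hdvd A hA.1 π hπ hd
      obtain ⟨a1, a2, a3, -⟩ := hUmem P (hA.1 hP)
      exact ⟨P, a1, a2, a3, has⟩
  · rw [card_image_of_injOn]
    · exact hfam
    · intro A hA A' hA' h
      rw [mem_coe, fam, mem_filter, mem_powerset] at hA hA'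
      have key : ∀ B B' : Finset k[X], B ⊆ U → B' ⊆ U → (∏ P ∈ B, P) = ∏ P ∈ B', P → B ⊆ B' := by
        intro B B' hB hB' he P hP
        obtain ⟨a1, a2, -⟩ := hUmem P (hB hP)
        obtain ⟨P', hP', has⟩ := hdvd B' hB' P a2 (by
          rw [← he]
          exact dvd_prod_of_mem _ hP)
        obtain ⟨b1, b2, -⟩ := hUmem P' (hB' hP')
        rw [eq_of_dvd a1 a2 b1 b2 has.dvd]
        exact hP'
      exact Subset.antisymm (key A A' hA.1 hA'.1 h) (key A' A hA'.1 hA.1 h.symm)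

end count

section main

variable {k k' K F : Type} [Field k] [Field k'] [Algebra k k'] [Field K] [Algebra k[X] K]
    [Field F] [Algebra k'[X] F] [IsFractionRing k'[X] F] [Algebra K F]

/-- **Many twists in towers of covers.** -/
theorem kummer_twists [Fintype k] (hT : IsTower k k' K F) (hk : ringChar k ≠ 2) {a b : k[X]}
    (hNb : NotNorm b) (hNd : NotNorm (a ^ 2 - 4 * b))
    (hbd : ∀ (c : k) (g : k[X]), b * (a ^ 2 - 4 * b) ≠ C c * g ^ 2)
    (hO : OnlyTrivial a b) (hO' : OnlyTrivial (-2 * a) (a ^ 2 - 4 * b))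
    {ℓ : ℕ} (hℓ : ℓ.Prime) (hℓ2 : ℓ ≠ 2) (hℓk : ℓ ∣ Fintype.card k - 1)
    (hp : NoPowerRoot (b * (a ^ 2 - 4 * b)) ℓ) :
    ∃ (c : ℝ) (n0 : ℕ), 0 < c ∧ ∀ n : ℕ, n0 ≤ n → ∃ V : Finset k[X],
      (∀ D ∈ V, D.Monic ∧ Squarefree D ∧ D.natDegree = n ∧
        ∀ (e : k) (j : ℕ), e ≠ 0 →
          TateAtTwo (F := F) k' (crvT (algebraMap k[X] K ((C e * (a * D)).comp (X ^ (ℓ ^ j))))
            (algebraMap k[X] K ((C (e ^ 2) * (b * D ^ 2)).comp (X ^ (ℓ ^ j)))))) ∧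
      c * (n : ℝ) ^ (1 / 4 * (1 - 1 / (ℓ : ℝ))) * (Fintype.card k : ℝ) ^ n ≤ n * V.card := by
  have h2 : (2 : k) ≠ 0 := Ring.two_ne_zero hk
  have hℓ0 : (0 : ℝ) < ℓ := by exact_mod_cast hℓ.pos
  have hℓ1 : (1 : ℝ) < ℓ := by exact_mod_cast hℓ.one_lt
  have hinv : 1 / (ℓ : ℝ) < 1 := by
    rw [div_lt_one hℓ0]
    exact hℓ1
  have hinv0 : 0 < 1 / (ℓ : ℝ) := by positivity
  obtain ⟨c, n0, hc, hn⟩ := many_sqfree (k := k) (δ := 1 / 4 * (1 - 1 / (ℓ : ℝ))) (by linarith)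
    (by linarith) (C0 := (22 * (b.natDegree + (a ^ 2 - 4 * b).natDegree : ℕ) +
      4 * Fintype.card k + 4) / 4) (by positivity)
    (fun P => (∀ r : k[X], ¬ P ∣ b - r ^ 2 ∧ ¬ P ∣ (a ^ 2 - 4 * b) - r ^ 2) ∧ NoPowerRoot P ℓ) (by
      intro m hm
      obtain ⟨T, hT', hc⟩ := exists_manyP hk hℓ hℓ2 hℓk (FF.ne_sq_of_notNorm hNb)
        (FF.ne_sq_of_notNorm hNd) hbd m hm
      refine ⟨T, fun P hP => ?_, ?_⟩
      · obtain ⟨e1, e2, e3, e4, e5⟩ := hT' P hP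
        exact ⟨e1, e2, e3, e4, e5⟩
      · linarith)
  refine ⟨c, n0, hc, fun n hnn => ?_⟩
  obtain ⟨V, hV, hcd⟩ := hn n hnn
  refine ⟨V, fun D hD => ?_, hcd⟩
  obtain ⟨h3, h4, h5, h6⟩ := hV D hD
  refine ⟨h3, h4, h5, ?_⟩
  intro e j he
  refine kummer hT h2 hNb hNd hO hO' ⟨h3.ne_zero, ?_⟩ he ((hℓ.odd_of_ne_two hℓ2).pow) ?_
  · intro π hπ hdv r
    obtain ⟨P, -, -, ⟨h7, -⟩, has⟩ := h6 π hπ hdv
    exact ⟨fun h8 => (h7 r).1 (has.symm.dvd.trans h8), fun h8 => (h7 r).2 (has.symm.dvd.trans h8)⟩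
  · intro ℓ' hℓ' hdv
    have e : ℓ' = ℓ := (Nat.prime_dvd_prime_iff_eq hℓ' hℓ).1 (hℓ'.dvd_of_dvd_pow hdv)
    subst e
    intro π hπ hdv'
    rcases hπ.prime.dvd_or_dvd hdv' with h8 | h8
    · exact hp π hπ h8
    · obtain ⟨P, -, -, ⟨-, h7⟩, has⟩ := h6 π hπ h8
      exact h7 π hπ has.dvd

/-- **Many twists.** -/
theorem many_twists [Fintype k] (hT : IsTower k k' K F) (hk : ringChar k ≠ 2) {a b : k[X]}
    (hNb : NotNorm b) (hNd : NotNorm (a ^ 2 - 4 * b))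
    (hbd : ∀ (c : k) (g : k[X]), b * (a ^ 2 - 4 * b) ≠ C c * g ^ 2)
    (hO : OnlyTrivial a b) (hO' : OnlyTrivial (-2 * a) (a ^ 2 - 4 * b)) :
    ∃ (c : ℝ) (n0 : ℕ), 0 < c ∧ ∀ n : ℕ, n0 ≤ n → ∃ V : Finset k[X],
      (∀ D ∈ V, D.Monic ∧ Squarefree D ∧ D.natDegree = n ∧
        ∀ (e : k) (h : k[X]), e ≠ 0 → Odd h.natDegree →
          (∀ π : k[X], Irreducible π → π ∣ b * (a ^ 2 - 4 * b) * D → Irreducible (π.comp h)) →
          TateAtTwo (F := F) k' (crvT (algebraMap k[X] K ((C e * (a * D)).comp h))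
            (algebraMap k[X] K ((C (e ^ 2) * (b * D ^ 2)).comp h)))) ∧
      c * (n : ℝ) ^ ((1 : ℝ) / 4) * (Fintype.card k : ℝ) ^ n ≤ n * V.card := by
  have h2 : (2 : k) ≠ 0 := Ring.two_ne_zero hk
  obtain ⟨c, n0, hc, hn⟩ := many_sqfree (k := k) (δ := 1 / 4) (by norm_num)
    (by norm_num) (C0 := (12 * (b.natDegree + (a ^ 2 - 4 * b).natDegree : ℕ) +
      4 * Fintype.card k) / 4) (by positivity)
    (fun P => ∀ r : k[X], ¬ P ∣ b - r ^ 2 ∧ ¬ P ∣ (a ^ 2 - 4 * b) - r ^ 2) (by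
      intro m hm
      obtain ⟨T, hT', hc⟩ := exists_many hk (FF.ne_sq_of_notNorm hNb)
        (FF.ne_sq_of_notNorm hNd) hbd m hm
      refine ⟨T, fun P hP => ?_, ?_⟩
      · obtain ⟨e1, e2, e3, e4⟩ := hT' P hP
        exact ⟨e1, e2, e3, e4⟩
      · linarith)
  refine ⟨c, n0, hc, fun n hnn => ?_⟩
  obtain ⟨V, hV, hcd⟩ := hn n hnn
  refine ⟨V, fun D hD => ?_, hcd⟩
  obtain ⟨h3, h4, h5, h6⟩ := hV D hD
  refine ⟨h3, h4, h5, ?_⟩
  intro e h he hodd hi
  have hb0 : b ≠ 0 := by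
    rintro rfl
    exact FF.ne_sq_of_notNorm hNb 0 0 (by simp)
  have hd0 : a ^ 2 - 4 * b ≠ 0 := by
    intro h0
    exact FF.ne_sq_of_notNorm hNd 0 0 (by rw [h0]; simp)
  refine twist_main hT h2 hb0 hd0 hNb hNd hO hO' ⟨h3.ne_zero, ?_⟩ he hodd ?_
  · intro π hπ hdv r
    obtain ⟨P, -, -, h7, has⟩ := h6 π hπ hdv
    exact ⟨fun h8 => (h7 r).1 (has.symm.dvd.trans h8), fun h8 => (h7 r).2 (has.symm.dvd.trans h8)⟩
  · intro π hπ hdv
    have h7 := hi π hπ hdv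
    exact ⟨h7, PerfectField.separable_of_irreducible h7⟩

end main

end Pool.Agent.R939.CC
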